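import Mathlib

/-!
# Sick compacta: the norm coming from a separable Banach lattice
-/

set_option autoImplicit false

open Filter Topology TopologicalSpace Set

namespace Pool.Agent.Q304.SK

universe u v

/-- `K` is sick: `C(K)` is vector lattice isomorphic to a principal ideal of a separable Banach
lattice. -/
def Sick (K : Type u) [TopologicalSpace K] : Prop :=
  ∃ (E : Type v) (_ : NormedAddCommGroup E) (_ : Lattice E) (_ : HasSolidNorm E)
    (_ : IsOrderedAddMonoid E) (_ : NormedSpace ℝ E) (_ : PosSMulMono ℝ E) (_ : CompleteSpace E)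
    (_ : SeparableSpace E) (x : E) (T : C(K, ℝ) →ₗ[ℝ] E),
    0 ≤ x ∧ Function.Injective T ∧ (∀ f g, T (f ⊔ g) = T f ⊔ T g) ∧
    (∀ f g, T (f ⊓ g) = T f ⊓ T g) ∧ range T = {y : E | ∃ r : ℝ, 0 < r ∧ |y| ≤ r • x}

section

variable {K : Type u} [TopologicalSpace K] {E : Type v} [NormedAddCommGroup E] [Lattice E]
  [HasSolidNorm E] [IsOrderedAddMonoid E] [NormedSpace ℝ E] [PosSMulMono ℝ E]
  {T : C(K, ℝ) →ₗ[ℝ] E}

lemma T_mono (hT : ∀ f g, T (f ⊔ g) = T f ⊔ T g) {f g : C(K, ℝ)} (h : f ≤ g) : T f ≤ T g := by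
  have := hT f g
  rw [sup_eq_right.2 h] at this
  rw [this]
  exact le_sup_left

lemma T_abs (hT : ∀ f g, T (f ⊔ g) = T f ⊔ T g) (f : C(K, ℝ)) : |T f| = T |f| := by
  rw [abs, abs, hT, map_neg]

lemma T_norm_mono (hT : ∀ f g, T (f ⊔ g) = T f ⊔ T g) {f g : C(K, ℝ)} (h : |f| ≤ |g|) :
    ‖T f‖ ≤ ‖T g‖ := by
  apply norm_le_norm_of_abs_le_abs
  rw [T_abs hT, T_abs hT]
  exact T_mono hT h

lemma T_complete [CompleteSpace E] (hT : ∀ f g, T (f ⊔ g) = T f ⊔ T g) {x : E}
    (hr : range T = {y : E | ∃ r : ℝ, 0 < r ∧ |y| ≤ r • x}) {F : ℕ → C(K, ℝ)} {c : ℝ} (hc : 0 < c)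
    (hF : ∀ n, |F n| ≤ c • (1 : C(K, ℝ))) (hcau : CauchySeq fun n => T (F n)) :
    ∃ G, Tendsto (fun n => T (F n)) atTop (𝓝 (T G)) := by
  obtain ⟨y, hy⟩ := cauchySeq_tendsto_of_complete hcau
  obtain ⟨r, hr0, hr1⟩ : ∃ r : ℝ, 0 < r ∧ |T 1| ≤ r • x := by
    have : T 1 ∈ range T := ⟨1, rfl⟩
    rwa [hr] at this
  have h1 : ∀ n, |T (F n)| ≤ (c * r) • x := by
    intro n
    rw [T_abs hT]
    calc T |F n| ≤ T (c • (1 : C(K, ℝ))) := T_mono hT (hF n)
      _ = c • T 1 := map_smul _ _ _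
      _ ≤ c • (r • x) := smul_le_smul_of_nonneg_left ((le_abs_self _).trans hr1) hc.le
      _ = (c * r) • x := smul_smul _ _ _
  have h2 : |y| ≤ (c * r) • x := by
    have hy' : Tendsto (fun n => |T (F n)|) atTop (𝓝 |y|) := by
      have hcont : Continuous fun z : E => |z| := by
        have : (fun z : E => |z|) = fun z => z ⊔ -z := rfl
        rw [this]
        exact continuous_id.sup continuous_neg
      exact (hcont.tendsto y).comp hy
    exact le_of_tendsto' hy' h1
  have h3 : y ∈ range T := by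
    rw [hr]
    exact ⟨c * r, by positivity, h2⟩
  obtain ⟨G, rfl⟩ := h3
  exact ⟨G, hy⟩

end

/-- A compact space with separable space of continuous functions is metrizable. -/
theorem metrizable_of_separable (L : Type u) [TopologicalSpace L] [CompactSpace L] [T2Space L]
    [SeparableSpace C(L, ℝ)] : MetrizableSpace L := by
  set e : L → ℕ → ℝ := fun l n => denseSeq C(L, ℝ) n l with he
  have hc : Continuous e := continuous_pi fun n => (denseSeq C(L, ℝ) n).continuous
  have hi : Function.Injective e := by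
    intro l l' h
    by_contra hne
    obtain ⟨f, hf0, hf1, -⟩ := exists_continuous_zero_one_of_isClosed (X := L)
      (isClosed_singleton (x := l)) (isClosed_singleton (x := l'))
      (disjoint_singleton.2 hne)
    obtain ⟨n, hn⟩ := (denseRange_denseSeq C(L, ℝ)).exists_dist_lt f (ε := 1 / 3) (by norm_num)
    have h1 := (ContinuousMap.dist_apply_le_dist l (f := f) (g := denseSeq C(L, ℝ) n)).trans_lt hn
    have h2 := (ContinuousMap.dist_apply_le_dist l' (f := f) (g := denseSeq C(L, ℝ) n)).trans_lt hn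
    have h3 : denseSeq C(L, ℝ) n l = denseSeq C(L, ℝ) n l' := congrFun h n
    rw [hf0 (mem_singleton l), Real.dist_eq] at h1
    rw [hf1 (mem_singleton l'), Real.dist_eq, ← h3] at h2
    simp only [Pi.zero_apply, Pi.one_apply] at h1 h2
    have a1 := abs_lt.1 h1
    have a2 := abs_lt.1 h2
    linarith [a1.1, a1.2, a2.1, a2.2]
  exact (hc.isClosedEmbedding hi).isEmbedding.metrizableSpace

end Pool.Agent.Q304.SK
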