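import Mathlib
import Pool.Agent.Q304.SK.Sick

/-!
# Strongly countably determined measures on sick compacta are analytic
-/

set_option autoImplicit false

open Filter Topology TopologicalSpace Set MeasureTheory

namespace Pool.Agent.Q304.SK

universe u v

/-- Regular Borel probability measures. -/
def RegProb (K : Type u) [TopologicalSpace K] [MeasurableSpace K] : Type u :=
  {μ : Measure K // IsProbabilityMeasure μ ∧ μ.Regular}

section

variable {K : Type u} [TopologicalSpace K] [MeasurableSpace K]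

/-- Weak* topology. -/
noncomputable instance : TopologicalSpace (RegProb K) :=
  TopologicalSpace.induced (fun μ (f : C(K, ℝ)) => ∫ x, f x ∂μ.1) inferInstance

instance (μ : RegProb K) : IsProbabilityMeasure μ.1 := μ.2.1

instance (μ : RegProb K) : μ.1.Regular := μ.2.2

lemma exists_countable {μ : RegProb K} (hμ : IsGδ ({μ} : Set (RegProb K))) :
    ∃ D : Set C(K, ℝ), D.Countable ∧
      ∀ ν : RegProb K, (∀ f ∈ D, ∫ x, f x ∂ν.1 = ∫ x, f x ∂μ.1) → ν = μ := by
  classical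
  obtain ⟨S, hSo, hSc, hS⟩ := hμ
  have h1 : ∀ s ∈ S, ∃ I : Finset C(K, ℝ), ∀ ν : RegProb K,
      (∀ f ∈ I, ∫ x, f x ∂ν.1 = ∫ x, f x ∂μ.1) → ν ∈ s := by
    intro s hs
    obtain ⟨V, hV, rfl⟩ := isOpen_induced_iff.1 (hSo s hs)
    have hμV : (fun f : C(K, ℝ) => ∫ x, f x ∂μ.1) ∈ V := by
      have : μ ∈ ⋂₀ S := by rw [← hS]; rfl
      exact mem_sInter.1 this _ hs
    obtain ⟨I, U, hU, hsub⟩ := isOpen_pi_iff.1 hV _ hμV
    refine ⟨I, fun ν hν => hsub ?_⟩
    intro f hf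
    have h2 := (hU f hf).2
    rw [← hν f hf] at h2
    exact h2
  choose! I hI using h1
  refine ⟨⋃ s ∈ S, (I s : Set C(K, ℝ)), hSc.biUnion fun s _ => (I s).countable_toSet, ?_⟩
  intro ν hν
  have : ν ∈ ⋂₀ S := by
    rw [mem_sInter]
    intro s hs
    refine hI s hs ν fun f hf => hν f ?_
    exact mem_iUnion₂.2 ⟨s, hs, hf⟩
  rw [← hS] at this
  exact this

variable [CompactSpace K] [T2Space K] [BorelSpace K]

lemma integ (μ : Measure K) [IsFiniteMeasure μ] (f : C(K, ℝ)) : Integrable (fun x => f x) μ :=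
  f.continuous.integrable_of_hasCompactSupport (HasCompactSupport.of_compactSpace _)

lemma int_mono (μ : Measure K) [IsFiniteMeasure μ] {f g : C(K, ℝ)} (h : f ≤ g) :
    ∫ x, f x ∂μ ≤ ∫ x, g x ∂μ := integral_mono (integ μ f) (integ μ g) h

/-- The upper functional. -/
noncomputable def Nf (μ : Measure K) (G : Submodule ℝ C(K, ℝ)) (f : C(K, ℝ)) : ℝ :=
  sInf ((fun g : C(K, ℝ) => ∫ x, g x ∂μ) '' {g | g ∈ G ∧ f ≤ g})

/-- Uniqueness of the measure gives approximation from above. -/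
theorem upper_eq {μ : RegProb K} {D : Set C(K, ℝ)}
    (hD : ∀ ν : RegProb K, (∀ f ∈ D, ∫ x, f x ∂ν.1 = ∫ x, f x ∂μ.1) → ν = μ)
    (f₀ : C(K, ℝ)) :
    Nf μ.1 (Submodule.span ℝ (insert 1 D)) f₀ = ∫ x, f₀ x ∂μ.1 := by
  classical
  set G := Submodule.span ℝ (insert 1 D) with hG
  set N := Nf μ.1 G with hN
  have h1G : (1 : C(K, ℝ)) ∈ G := Submodule.subset_span (mem_insert _ _)
  have hne : ∀ f : C(K, ℝ),
      ((fun g : C(K, ℝ) => ∫ x, g x ∂μ.1) '' {g | g ∈ G ∧ f ≤ g}).Nonempty := by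
    intro f
    refine ⟨_, ‖f‖ • (1 : C(K, ℝ)), ⟨G.smul_mem _ h1G, fun x => ?_⟩, rfl⟩
    show f x ≤ ‖f‖ * 1
    rw [mul_one]
    exact (le_abs_self _).trans (f.norm_coe_le_norm x)
  have hbd : ∀ f : C(K, ℝ),
      BddBelow ((fun g : C(K, ℝ) => ∫ x, g x ∂μ.1) '' {g | g ∈ G ∧ f ≤ g}) := by
    intro f
    refine ⟨∫ x, f x ∂μ.1, ?_⟩
    rintro _ ⟨g, ⟨-, hg⟩, rfl⟩
    exact int_mono μ.1 hg
  have hle : ∀ {f g : C(K, ℝ)}, g ∈ G → f ≤ g → N f ≤ ∫ x, g x ∂μ.1 := by
    intro f g hg hfg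
    exact csInf_le (hbd f) ⟨g, ⟨hg, hfg⟩, rfl⟩
  have hge : ∀ {f : C(K, ℝ)} {a : ℝ}, (∀ g ∈ G, f ≤ g → a ≤ ∫ x, g x ∂μ.1) → a ≤ N f := by
    intro f a h
    refine le_csInf (hne f) ?_
    rintro _ ⟨g, ⟨hg, hfg⟩, rfl⟩
    exact h g hg hfg
  have hom1 : ∀ c : ℝ, 0 < c → ∀ f, N (c • f) ≤ c * N f := by
    intro c hc f
    rw [← div_le_iff₀' hc]
    refine hge fun g hg hfg => ?_
    rw [div_le_iff₀' hc]
    have h2 : c • f ≤ c • g := fun x => mul_le_mul_of_nonneg_left (hfg x) hc.le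
    refine (hle (G.smul_mem c hg) h2).trans (le_of_eq ?_)
    exact integral_const_mul c _
  have hom : ∀ c : ℝ, 0 < c → ∀ f, N (c • f) = c * N f := by
    intro c hc f
    refine le_antisymm (hom1 c hc f) ?_
    have := hom1 c⁻¹ (inv_pos.2 hc) (c • f)
    rw [smul_smul, inv_mul_cancel₀ hc.ne', one_smul] at this
    rwa [← div_eq_inv_mul, le_div_iff₀' hc] at this
  have hadd : ∀ f g, N (f + g) ≤ N f + N g := by
    intro f g
    rw [← sub_le_iff_le_add]
    refine hge fun a ha hfa => ?_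
    rw [sub_le_iff_le_add, ← sub_le_iff_le_add']
    refine hge fun b hb hgb => ?_
    rw [sub_le_iff_le_add']
    refine (hle (G.add_mem ha hb) (add_le_add hfa hgb)).trans (le_of_eq ?_)
    exact integral_add (integ μ.1 a) (integ μ.1 b)
  have h0 : N 0 = 0 := by
    have := hom 2 (by norm_num) 0
    rw [smul_zero] at this
    linarith
  rcases eq_or_ne f₀ 0 with rfl | hf₀
  · rw [h0]; simp
  set φ : C(K, ℝ) →ₗ.[ℝ] ℝ := LinearPMap.mkSpanSingleton f₀ (N f₀) hf₀ with hφ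
  obtain ⟨ν, hν1, hν2⟩ := exists_extension_of_le_sublinear φ N hom hadd (by
    rintro ⟨x, hx⟩
    obtain ⟨t, rfl⟩ := Submodule.mem_span_singleton.1 hx
    have h1 : φ ⟨t • f₀, hx⟩ = t * N f₀ := LinearPMap.mkSpanSingleton'_apply _ _ _ _ _
    rw [h1]
    show t * N f₀ ≤ N (t • f₀)
    rcases lt_trichotomy t 0 with ht | rfl | ht
    · have h2 := hadd (t • f₀) ((-t) • f₀)
      rw [← add_smul, add_neg_cancel, zero_smul, h0, hom (-t) (by linarith)] at h2
      linarith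
    · rw [zero_mul, zero_smul, h0]
    · rw [hom t ht])
  have hνf : ν f₀ = N f₀ := by
    have h1 := hν1 ⟨f₀, Submodule.mem_span_singleton_self f₀⟩
    rw [show ((⟨f₀, Submodule.mem_span_singleton_self f₀⟩ : φ.domain) : C(K, ℝ)) = f₀ from rfl] at h1
    rw [h1]
    exact LinearPMap.mkSpanSingleton'_apply_self _ _ _ _
  have hνG : ∀ g ∈ G, ν g = ∫ x, g x ∂μ.1 := by
    intro g hg
    refine le_antisymm ((hν2 g).trans (hle hg le_rfl)) ?_
    have h1 := (hν2 (-g)).trans (hle (G.neg_mem hg) le_rfl)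
    have h2 : ∫ x, (-g) x ∂μ.1 = -∫ x, g x ∂μ.1 := integral_neg _
    rw [map_neg, h2] at h1
    linarith
  have hνpos : ∀ f, 0 ≤ f → 0 ≤ ν f := by
    intro f hf
    have h1 := (hν2 (-f)).trans (hle (f := -f) (g := 0) G.zero_mem (neg_nonpos.2 hf))
    have h2 : ∫ x, (0 : C(K, ℝ)) x ∂μ.1 = 0 := by simp
    rw [map_neg, h2] at h1
    linarith
  -- the representing measure
  let Λ : CompactlySupportedContinuousMap K ℝ →ₚ[ℝ] ℝ :=
    { toFun := fun g => ν g.toContinuousMap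
      map_add' := fun g g' => by rw [← map_add]; rfl
      map_smul' := fun c g => by rw [RingHom.id_apply, ← map_smul]; rfl
      monotone' := fun g g' hgg' => by
        have h1 := hνpos (g'.toContinuousMap - g.toContinuousMap) (fun x => sub_nonneg.2 (hgg' x))
        rw [map_sub] at h1
        show ν g.toContinuousMap ≤ ν g'.toContinuousMap
        linarith }
  have hrep : ∀ f : C(K, ℝ), ∫ x, f x ∂(RealRMK.rieszMeasure Λ) = ν f := by
    intro f
    let f' : CompactlySupportedContinuousMap K ℝ :=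
      { toContinuousMap := f
        hasCompactSupport' := HasCompactSupport.of_compactSpace _ }
    exact RealRMK.integral_rieszMeasure Λ f'
  have hprob : IsProbabilityMeasure (RealRMK.rieszMeasure Λ) := by
    have h1 := hrep 1
    rw [hνG 1 h1G] at h1
    have h2 : ∫ x, (1 : C(K, ℝ)) x ∂μ.1 = 1 := by simp
    have h3 : ∫ x, (1 : C(K, ℝ)) x ∂(RealRMK.rieszMeasure Λ) =
        (RealRMK.rieszMeasure Λ).real univ := by simp
    rw [h2, h3] at h1
    constructor
    rw [Measure.real] at h1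
    have h4 : (RealRMK.rieszMeasure Λ) univ ≠ ⊤ := measure_ne_top _ _
    rw [← ENNReal.ofReal_toReal h4, h1, ENNReal.ofReal_one]
  have hreg : (RealRMK.rieszMeasure Λ).Regular := inferInstance
  have heq : (⟨RealRMK.rieszMeasure Λ, hprob, hreg⟩ : RegProb K) = μ := by
    apply hD
    intro f hf
    show ∫ x, f x ∂(RealRMK.rieszMeasure Λ) = _
    rw [hrep, hνG f (Submodule.subset_span (mem_insert_of_mem _ hf))]
  have h5 : RealRMK.rieszMeasure Λ = μ.1 := congrArg Subtype.val heq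
  rw [← hνf, ← hrep, h5]

/-- A countable set of continuous functions approximating all continuous functions from above in
the mean. -/
theorem exists_approx {μ : RegProb K} (hμ : IsGδ ({μ} : Set (RegProb K))) :
    ∃ C : Set C(K, ℝ), C.Countable ∧ ∀ f : C(K, ℝ), ∀ ε > 0, ∃ h ∈ C, f ≤ h ∧
      ∫ x, h x ∂μ.1 < ∫ x, f x ∂μ.1 + ε := by
  obtain ⟨D, hDc, hD⟩ := exists_countable hμ
  set G := Submodule.span ℝ (insert 1 D) with hG
  have hsep : IsSeparable (G : Set C(K, ℝ)) := ((hDc.insert 1).isSeparable).span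
  obtain ⟨S, hSc, hS⟩ := hsep
  refine ⟨(fun p : C(K, ℝ) × ℚ => p.1 + ((p.2 : ℝ)) • (1 : C(K, ℝ))) '' (S ×ˢ univ),
    (hSc.prod countable_univ).image _, ?_⟩
  intro f ε hε
  have h1 := upper_eq hD f
  obtain ⟨_, ⟨g, ⟨hgG, hfg⟩, rfl⟩, hg⟩ : ∃ a ∈ ((fun g : C(K, ℝ) => ∫ x, g x ∂μ.1) ''
      {g | g ∈ G ∧ f ≤ g}), a < ∫ x, f x ∂μ.1 + ε / 3 := by
    apply exists_lt_of_csInf_lt
    · refine ⟨_, ‖f‖ • (1 : C(K, ℝ)), ⟨G.smul_mem _ (Submodule.subset_span (mem_insert _ _)),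
        fun x => ?_⟩, rfl⟩
      show f x ≤ ‖f‖ * 1
      rw [mul_one]
      exact (le_abs_self _).trans (f.norm_coe_le_norm x)
    · have : sInf ((fun g : C(K, ℝ) => ∫ x, g x ∂μ.1) '' {g | g ∈ G ∧ f ≤ g}) =
        ∫ x, f x ∂μ.1 := h1
      rw [this]
      linarith
  obtain ⟨s, hsS, hs⟩ := Metric.mem_closure_iff.1 (hS hgG) (ε / 6) (by positivity)
  obtain ⟨q, hq1, hq2⟩ := exists_rat_btwn hs
  have hgs : g ≤ s + ((q : ℝ)) • (1 : C(K, ℝ)) := by
    intro x
    show g x ≤ s x + (q : ℝ) * 1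
    have h2 := (ContinuousMap.dist_apply_le_dist x (f := g) (g := s))
    rw [Real.dist_eq] at h2
    have h3 := abs_le.1 h2
    linarith [h3.2]
  refine ⟨s + ((q : ℝ)) • (1 : C(K, ℝ)), ⟨(s, q), ⟨hsS, mem_univ _⟩, rfl⟩, hfg.trans hgs, ?_⟩
  have hsg : s + ((q : ℝ)) • (1 : C(K, ℝ)) ≤ g + ((2 * q : ℝ)) • (1 : C(K, ℝ)) := by
    intro x
    show s x + (q : ℝ) * 1 ≤ g x + (2 * q : ℝ) * 1
    have h2 := (ContinuousMap.dist_apply_le_dist x (f := g) (g := s))
    rw [Real.dist_eq] at h2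
    have h3 := abs_le.1 h2
    linarith [h3.1]
  have h4 := int_mono μ.1 hsg
  have h5 : ∫ x, (g + ((2 * q : ℝ)) • (1 : C(K, ℝ))) x ∂μ.1 = ∫ x, g x ∂μ.1 + 2 * q := by
    have : ∀ x, (g + ((2 * q : ℝ)) • (1 : C(K, ℝ))) x = g x + 2 * q := fun x => by
      show g x + (2 * q : ℝ) * 1 = _
      ring
    simp only [this]
    rw [integral_add (integ μ.1 g) (integrable_const _)]
    simp
  rw [h5] at h4
  have h6 : (fun g : C(K, ℝ) => ∫ x, g x ∂μ.1) g < ∫ x, f x ∂μ.1 + ε / 3 := hg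
  simp only at h6
  linarith

end

/-- Measurability into a separable metric space from distances to a dense sequence. -/
lemma measurable_of_dist {A Z : Type*} [MeasurableSpace A] [PseudoMetricSpace Z]
    [MeasurableSpace Z] [BorelSpace Z] {j : A → Z} {D : Set Z} (hDc : D.Countable) (hD : Dense D)
    (h : ∀ z ∈ D, Measurable fun a => dist (j a) z) : Measurable j := by
  refine measurable_of_isOpen fun U hU => ?_
  have h1 : j ⁻¹' U = ⋃ p ∈ {p : Z × ℚ | p.1 ∈ D ∧ Metric.ball p.1 p.2 ⊆ U},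
      {a | dist (j a) p.1 < p.2} := by
    ext a
    simp only [mem_preimage, mem_iUnion, mem_setOf_eq, exists_prop]
    constructor
    · intro ha
      obtain ⟨ε, hε, hball⟩ := Metric.isOpen_iff.1 hU _ ha
      obtain ⟨z, hz, hzD⟩ := Metric.dense_iff.1 hD (j a) (ε / 2) (by positivity)
      have hz' : dist (j a) z < ε / 2 := by rw [dist_comm]; exact hz
      obtain ⟨q, hq1, hq2⟩ := exists_rat_btwn hz'
      refine ⟨(z, q), ⟨hzD, fun y hy => hball ?_⟩, hq1⟩
      rw [Metric.mem_ball] at hy ⊢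
      have := dist_triangle_right y (j a) z
      linarith
    · rintro ⟨⟨z, q⟩, ⟨-, hsub⟩, ha⟩
      exact hsub ha
  rw [h1]
  have hsub : {p : Z × ℚ | p.1 ∈ D ∧ Metric.ball p.1 p.2 ⊆ U} ⊆ D ×ˢ (univ : Set ℚ) :=
    fun p hp => mem_prod.2 ⟨hp.1, mem_univ _⟩
  have hc : {p : Z × ℚ | p.1 ∈ D ∧ Metric.ball p.1 p.2 ⊆ U}.Countable :=
    (hDc.prod (countable_univ (α := ℚ))).mono hsub
  exact MeasurableSet.biUnion hc fun p hp => measurableSet_lt (h p.1 hp.1) measurable_const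

/-- `K` is sick, with the constant function one sent to the generator of the principal ideal. -/
def SickU (K : Type u) [TopologicalSpace K] : Prop :=
  ∃ (E : Type v) (_ : NormedAddCommGroup E) (_ : Lattice E) (_ : HasSolidNorm E)
    (_ : IsOrderedAddMonoid E) (_ : NormedSpace ℝ E) (_ : PosSMulMono ℝ E) (_ : CompleteSpace E)
    (_ : SeparableSpace E) (x : E) (T : C(K, ℝ) →ₗ[ℝ] E),
    0 ≤ x ∧ Function.Injective T ∧ (∀ f g, T (f ⊔ g) = T f ⊔ T g) ∧
    (∀ f g, T (f ⊓ g) = T f ⊓ T g) ∧ T 1 = x ∧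
    range T = {y : E | ∃ r : ℝ, 0 < r ∧ |y| ≤ r • x}

theorem analytic_of_Gdelta {K : Type u} [TopologicalSpace K] [MeasurableSpace K] [CompactSpace K]
    [T2Space K] [BorelSpace K] (hK : SickU.{u, v} K) {μ : RegProb K}
    (hμ : IsGδ ({μ} : Set (RegProb K))) :
    SeparableSpace (Lp ℝ 1 μ.1) ∧
      AnalyticSet (range (ContinuousMap.toLp (E := ℝ) 1 μ.1 ℝ : C(K, ℝ) → Lp ℝ 1 μ.1)) := by
  classical
  obtain ⟨C, hCc, hC⟩ := exists_approx hμ
  set J : C(K, ℝ) →L[ℝ] Lp ℝ 1 μ.1 := ContinuousMap.toLp (E := ℝ) 1 μ.1 ℝ with hJ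
  have hnorm : ∀ f : C(K, ℝ), ‖J f‖ = ∫ x, |f x| ∂μ.1 := by
    intro f
    rw [L1.norm_eq_integral_norm]
    refine integral_congr_ae ?_
    filter_upwards [ContinuousMap.coeFn_toLp (p := 1) (𝕜 := ℝ) μ.1 f] with x hx
    rw [hJ, hx, Real.norm_eq_abs]
  have hdense : Dense (J '' C) := by
    have h1 : DenseRange J := ContinuousMap.toLp_denseRange ℝ μ.1 ℝ (by norm_num)
    have h2 : range J ⊆ closure (J '' C) := by
      rintro _ ⟨f, rfl⟩
      rw [Metric.mem_closure_iff]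
      intro ε hε
      obtain ⟨h, hhC, hfh, hh⟩ := hC f ε hε
      refine ⟨J h, mem_image_of_mem J hhC, ?_⟩
      rw [dist_comm, dist_eq_norm, ← map_sub, hnorm]
      have h3 : ∀ x, |(h - f) x| = h x - f x := fun x => by
        rw [ContinuousMap.sub_apply]
        exact abs_of_nonneg (sub_nonneg.2 (hfh x))
      simp only [h3]
      rw [integral_sub (integ μ.1 h) (integ μ.1 f)]
      linarith
    intro z
    have h3 := h1 z
    exact closure_minimal h2 isClosed_closure h3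
  have hsepL : SeparableSpace (Lp ℝ 1 μ.1) :=
    ⟨(⟨J '' C, hCc.image _, hdense⟩ : ∃ s : Set (Lp ℝ 1 μ.1), s.Countable ∧ Dense s)⟩
  refine ⟨hsepL, ?_⟩
  have : SecondCountableTopology (Lp ℝ 1 μ.1) := UniformSpace.secondCountable_of_separable _
  let _ : MeasurableSpace (Lp ℝ 1 μ.1) := borel _
  have : BorelSpace (Lp ℝ 1 μ.1) := ⟨rfl⟩
  obtain ⟨E, i1, i2, i3, i4, i5, i6, i7, i8, x, T, hx, hinj, hsup, hinf, hT1, hr⟩ := hK
  let _ : MeasurableSpace E := borel _
  have : BorelSpace E := ⟨rfl⟩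
  have : SecondCountableTopology E := UniformSpace.secondCountable_of_separable E
  have : PolishSpace E := inferInstance
  have hrefl : ∀ f g, T f ≤ T g → f ≤ g := by
    intro f g h
    have h1 := hsup f g
    rw [sup_eq_right.2 h] at h1
    exact sup_eq_right.1 (hinj h1)
  set iv : E → C(K, ℝ) := Function.invFun T with hiv
  have hivT : ∀ f, iv (T f) = f := Function.leftInverse_invFun hinj
  set Pn : ℕ → Set E := fun n => {y | |y| ≤ (n : ℝ) • x} with hPn
  have hPr : ∀ n, ∀ y ∈ Pn n, ∃ f, T f = y := by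
    intro n y hy
    have : y ∈ range T := by
      rw [hr]
      refine ⟨(n : ℝ) + 1, by positivity, le_trans hy ?_⟩
      rw [add_smul, one_smul]
      exact le_add_of_nonneg_right hx
    exact this
  have habsc : Continuous fun z : E => |z| := by
    have : (fun z : E => |z|) = fun z => z ⊔ -z := rfl
    rw [this]
    exact continuous_id.sup continuous_neg
  have hPc : ∀ n, IsClosed (Pn n) := fun n => isClosed_le habsc continuous_const
  have : ∀ n, PolishSpace (Pn n) := fun n => (hPc n).polishSpace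
  -- the integral is Borel
  have hm : ∀ n, Measurable fun y : Pn n => ∫ z, (iv y) z ∂μ.1 := by
    intro n
    refine measurable_of_Iio fun a => ?_
    have h1 : (fun y : Pn n => ∫ z, (iv y) z ∂μ.1) ⁻¹' Iio a =
        ⋃ h ∈ {h ∈ C | ∫ z, h z ∂μ.1 < a}, {y : Pn n | (y : E) ≤ T h} := by
      ext y
      obtain ⟨f, hf⟩ := hPr n y y.2
      simp only [mem_preimage, mem_Iio, mem_iUnion, mem_setOf_eq, exists_prop]
      rw [← hf, hivT]
      constructor
      · intro hfa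
        obtain ⟨h, hhC, hfh, hh⟩ := hC f (a - ∫ z, f z ∂μ.1) (by linarith)
        exact ⟨h, ⟨hhC, by linarith⟩, T_mono hsup hfh⟩
      · rintro ⟨h, ⟨hhC, hha⟩, hfh⟩
        exact (int_mono μ.1 (hrefl _ _ hfh)).trans_lt hha
    rw [h1]
    refine MeasurableSet.biUnion (hCc.mono fun h hh => hh.1) fun h _ => ?_
    exact (isClosed_le continuous_subtype_val continuous_const).measurableSet
  -- the map to the space of integrable functions is Borel
  have hj : ∀ n, Measurable fun y : Pn n => J (iv y) := by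
    intro n
    refine measurable_of_dist (hCc.image J) hdense ?_
    rintro _ ⟨g, -, rfl⟩
    set n' : ℕ := n + ⌈‖g‖⌉₊ with hn'
    have hmem : ∀ y : Pn n, |(y : E) - T g| ∈ Pn n' := by
      intro y
      show |(|(y : E) - T g|)| ≤ (n' : ℝ) • x
      rw [abs_abs]
      have h1 : |T g| ≤ ((⌈‖g‖⌉₊ : ℕ) : ℝ) • x := by
        rw [T_abs hsup, ← hT1, ← map_smul]
        apply T_mono hsup
        intro z
        show |g z| ≤ ((⌈‖g‖⌉₊ : ℕ) : ℝ) * 1
        rw [mul_one]
        exact (g.norm_coe_le_norm z).trans (Nat.le_ceil _)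
      have h2 : |(y : E)| ≤ (n : ℝ) • x := y.2
      have h3 : |(y : E) - T g| ≤ |(y : E)| + |T g| := by
        rw [sub_eq_add_neg, ← abs_neg (T g)]
        exact abs_add_le _ _
      rw [hn']
      push_cast
      rw [add_smul]
      exact h3.trans (add_le_add h2 h1)
    have h2 : (fun y : Pn n => dist (J (iv y)) (J g)) =
        (fun y : Pn n' => ∫ z, (iv y) z ∂μ.1) ∘ fun y : Pn n => ⟨|(y : E) - T g|, hmem y⟩ := by
      funext y
      obtain ⟨f, hf⟩ := hPr n y y.2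
      simp only [Function.comp]
      rw [← hf, hivT, ← map_sub, T_abs hsup, hivT, dist_eq_norm, ← map_sub, hnorm]
      rfl
    rw [h2]
    refine (hm n').comp (Continuous.measurable ?_)
    exact (habsc.comp (continuous_subtype_val.sub continuous_const)).subtype_mk _
  have hran : range (J : C(K, ℝ) → Lp ℝ 1 μ.1) = ⋃ n, (fun y : Pn n => J (iv y)) '' univ := by
    ext z
    simp only [mem_range, mem_iUnion, image_univ]
    constructor
    · rintro ⟨f, rfl⟩
      refine ⟨⌈‖f‖⌉₊, ⟨T f, ?_⟩, by simp only [hivT]⟩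
      show |T f| ≤ ((⌈‖f‖⌉₊ : ℕ) : ℝ) • x
      rw [T_abs hsup, ← hT1, ← map_smul]
      apply T_mono hsup
      intro z
      show |f z| ≤ ((⌈‖f‖⌉₊ : ℕ) : ℝ) * 1
      rw [mul_one]
      exact (f.norm_coe_le_norm z).trans (Nat.le_ceil _)
    · rintro ⟨n, y, rfl⟩
      exact ⟨_, rfl⟩
  rw [hran]
  exact AnalyticSet.iUnion fun n => MeasurableSet.univ.analyticSet_image (hj n)

end Pool.Agent.Q304.SK
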