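import Mathlib
import Pool.Agent.Q304.SK.Meas

/-!
# The Stone space of the clopen algebra of a sick compactum is sick
-/

set_option autoImplicit false

open Filter Topology TopologicalSpace Set

namespace Pool.Agent.Q304.SK

universe u v

section Transfer

variable {E : Type v} [NormedAddCommGroup E] [Lattice E] [HasSolidNorm E] [IsOrderedAddMonoid E]
  [NormedSpace ℝ E] [PosSMulMono ℝ E] [CompleteSpace E] [SeparableSpace E]

/-- Transfer of sickness to a sublattice of `C(K)` whose order intervals are closed. -/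
theorem sick_of_closed {K Z : Type u} [TopologicalSpace K] [TopologicalSpace Z]
    [CompactSpace K] [CompactSpace Z]
    {x : E} {T : C(K, ℝ) →ₗ[ℝ] E} (hx : 0 ≤ x) (hinj : Function.Injective T)
    (hsup : ∀ f g, T (f ⊔ g) = T f ⊔ T g) (hinf : ∀ f g, T (f ⊓ g) = T f ⊓ T g) (hT1 : T 1 = x)
    (hr : range T = {y : E | ∃ r : ℝ, 0 < r ∧ |y| ≤ r • x})
    (π : C(K, Z)) (hπ : Function.Surjective π)
    (hcl : ∀ (f : ℕ → C(Z, ℝ)) (F : C(K, ℝ)),
      Tendsto (fun n => T ((f n).comp π)) atTop (𝓝 (T F)) → ∃ g : C(Z, ℝ), F = g.comp π) :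
    SickU.{u, v} Z := by
  let Φ : C(Z, ℝ) →ₗ[ℝ] E :=
    { toFun := fun f => T (f.comp π)
      map_add' := fun f g => by rw [← map_add]; rfl
      map_smul' := fun c g => by rw [RingHom.id_apply, ← map_smul]; rfl }
  have hΦ : ∀ f, Φ f = T (f.comp π) := fun f => rfl
  have hΦsup : ∀ f g, Φ (f ⊔ g) = Φ f ⊔ Φ g := fun f g => hsup (f.comp π) (g.comp π)
  have hΦinf : ∀ f g, Φ (f ⊓ g) = Φ f ⊓ Φ g := fun f g => hinf (f.comp π) (g.comp π)
  have hΦ1 : Φ 1 = x := hT1
  have hΦinj : Function.Injective Φ := by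
    intro f g hfg
    have h1 := hinj hfg
    ext z
    obtain ⟨k, rfl⟩ := hπ z
    exact DFunLike.congr_fun h1 k
  let E' : Submodule ℝ E := (LinearMap.range Φ).topologicalClosure
  have hE' : ∀ y : E, y ∈ E' ↔ y ∈ closure (range Φ) := fun y => Iff.rfl
  have hsupE : ∀ y z, y ∈ E' → z ∈ E' → y ⊔ z ∈ E' := by
    intro y z hy hz
    rw [hE'] at *
    refine map_mem_closure₂ (f := fun a b : E => a ⊔ b) (by fun_prop) hy hz ?_
    rintro _ ⟨f, rfl⟩ _ ⟨g, rfl⟩
    exact ⟨f ⊔ g, hΦsup f g⟩
  have hinfE : ∀ y z, y ∈ E' → z ∈ E' → y ⊓ z ∈ E' := by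
    intro y z hy hz
    rw [hE'] at *
    refine map_mem_closure₂ (f := fun a b : E => a ⊓ b) (by fun_prop) hy hz ?_
    rintro _ ⟨f, rfl⟩ _ ⟨g, rfl⟩
    exact ⟨f ⊓ g, hΦinf f g⟩
  have hmem : ∀ f, Φ f ∈ E' := fun f => subset_closure ⟨f, rfl⟩
  letI latE : Lattice E' := Subtype.lattice (P := fun y : E => y ∈ E')
    (fun {y z} hy hz => hsupE y z hy hz) (fun {y z} hy hz => hinfE y z hy hz)
  have habs : ∀ y : E', ((|y| : E') : E) = |(y : E)| := fun y => rfl
  have hsolid : HasSolidNorm E' := by
    constructor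
    intro y z hyz
    have h1 : |(y : E)| ≤ |(z : E)| := hyz
    have h2 : ‖(y : E)‖ ≤ ‖(z : E)‖ := norm_le_norm_of_abs_le_abs h1
    exact h2
  have hord : IsOrderedAddMonoid E' := by
    refine { add_le_add_left := ?_ }
    intro a b hab c
    have h1 : (a : E) ≤ b := hab
    show (a : E) + c ≤ b + c
    gcongr
  have hpos : PosSMulMono ℝ E' := by
    constructor
    intro c hc a b hab
    have h1 : (a : E) ≤ b := hab
    show c • (a : E) ≤ c • (b : E)
    exact smul_le_smul_of_nonneg_left h1 hc
  have : SecondCountableTopology E := UniformSpace.secondCountable_of_separable E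
  have hcomp : CompleteSpace E' :=
    (Submodule.isClosed_topologicalClosure (LinearMap.range Φ)).completeSpace_coe
  have hsep : SeparableSpace E' := inferInstance
  have hxE : x ∈ E' := by rw [← hΦ1]; exact hmem 1
  refine ⟨E', inferInstance, latE, hsolid, hord, inferInstance, hpos, hcomp, hsep, ⟨x, hxE⟩,
    Φ.codRestrict E' hmem, hx, ?_, ?_, ?_, ?_, ?_⟩
  · intro f g hfg
    exact hΦinj (congrArg Subtype.val hfg)
  · intro f g
    exact Subtype.ext (hΦsup f g)
  · intro f g
    exact Subtype.ext (hΦinf f g)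
  · exact Subtype.ext hΦ1
  · ext y
    constructor
    · rintro ⟨f, rfl⟩
      refine ⟨‖f‖ + 1, by positivity, ?_⟩
      show |Φ f| ≤ (‖f‖ + 1) • x
      rw [hΦ, T_abs hsup, ← hT1, ← map_smul]
      apply T_mono hsup
      intro k
      show |f (π k)| ≤ (‖f‖ + 1) * 1
      have := f.norm_coe_le_norm (π k)
      rw [Real.norm_eq_abs] at this
      linarith
    · rintro ⟨r, hr0, hyr⟩
      have hyr' : |(y : E)| ≤ r • x := hyr
      obtain ⟨F, hF⟩ : (y : E) ∈ range T := by
        rw [hr]; exact ⟨r, hr0, hyr'⟩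
      have hycl : (y : E) ∈ closure (range Φ) := (hE' _).1 y.2
      obtain ⟨u, hu, hulim⟩ := mem_closure_iff_seq_limit.1 hycl
      choose f hf using hu
      obtain ⟨g, hg⟩ := hcl f F (by
        rw [hF]
        refine hulim.congr fun n => ?_
        rw [← hf, hΦ])
      refine ⟨g, Subtype.ext ?_⟩
      show Φ g = y
      rw [hΦ, ← hg, hF]

end Transfer

/-- Separation of levels by clopen sets in a zero-dimensional compact space. -/
lemma exists_clopen_between {Z : Type u} [TopologicalSpace Z] [CompactSpace Z] [T2Space Z]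
    [TotallyDisconnectedSpace Z] (f : C(Z, ℝ)) {a b : ℝ} (hab : a < b) :
    ∃ B : Set Z, IsClopen B ∧ (∀ z, b ≤ f z → z ∈ B) ∧ (∀ z ∈ B, a < f z) := by
  have hc : IsCompact {z | b ≤ f z} := (isClosed_le continuous_const f.continuous).isCompact
  have ho : IsOpen {z | a < f z} := isOpen_lt continuous_const f.continuous
  have h1 : ∀ z ∈ {z | b ≤ f z}, ∃ V : Set Z, IsClopen V ∧ z ∈ V ∧ V ⊆ {z | a < f z} := by
    intro z hz
    exact compact_exists_isClopen_in_isOpen ho (lt_of_lt_of_le hab hz)
  choose! V hV1 hV2 hV3 using h1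
  obtain ⟨t, ht⟩ := hc.elim_nhds_subcover' (fun z _ => V z)
    (fun z hz => (hV1 z hz).isOpen.mem_nhds (hV2 z hz))
  refine ⟨⋃ z ∈ t, V z, t.finite_toSet.isClopen_biUnion fun z _ => hV1 z z.2, ?_, ?_⟩
  · intro z hz
    exact ht hz
  · intro z hz
    obtain ⟨w, hw, hzw⟩ := mem_iUnion₂.1 hz
    exact hV3 w w.2 hzw

open Classical in
/-- Indicator of a clopen set. -/
noncomputable def ind {Z : Type u} [TopologicalSpace Z] (A : Set Z) : C(Z, ℝ) :=
  if h : IsClopen A then ⟨A.indicator fun _ => (1 : ℝ), continuous_const.indicator (by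
    rw [h.frontier_eq]; intro a ha; exact ha.elim)⟩ else 0

lemma ind_mem {Z : Type u} [TopologicalSpace Z] {A : Set Z} (h : IsClopen A) {z : Z} (hz : z ∈ A) :
    ind A z = 1 := by
  rw [ind, dif_pos h]
  show A.indicator (fun _ => (1 : ℝ)) z = 1
  exact indicator_of_mem hz _

lemma ind_not_mem {Z : Type u} [TopologicalSpace Z] {A : Set Z} (h : IsClopen A) {z : Z}
    (hz : z ∉ A) : ind A z = 0 := by
  rw [ind, dif_pos h]
  show A.indicator (fun _ => (1 : ℝ)) z = 0
  exact indicator_of_notMem hz _

section Closed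

variable {E : Type v} [NormedAddCommGroup E] [Lattice E] [HasSolidNorm E] [IsOrderedAddMonoid E]
  [NormedSpace ℝ E] [PosSMulMono ℝ E] [CompleteSpace E]
  {K Z : Type u} [TopologicalSpace K] [TopologicalSpace Z] [CompactSpace K] [CompactSpace Z]
  [T2Space Z] [TotallyDisconnectedSpace Z]

omit [CompleteSpace E] in
lemma T_mul {T : C(K, ℝ) →ₗ[ℝ] E} (hsup : ∀ f g, T (f ⊔ g) = T f ⊔ T g) (a b : C(K, ℝ)) :
    ‖T (a * b)‖ ≤ ‖a‖ * ‖T b‖ := by
  have h1 : ‖T (a * b)‖ ≤ ‖T (‖a‖ • b)‖ := by
    apply T_norm_mono hsup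
    intro k
    show |a k * b k| ≤ |‖a‖ * b k|
    rw [abs_mul, abs_mul, abs_of_nonneg (norm_nonneg a)]
    exact mul_le_mul_of_nonneg_right (a.norm_coe_le_norm k) (abs_nonneg _)
  rwa [map_smul, norm_smul, norm_norm] at h1

/-- The main step: levels of a limit are separated by clopen sets. -/
theorem separated {x : E} {T : C(K, ℝ) →ₗ[ℝ] E} (hinj : Function.Injective T)
    (hsup : ∀ f g, T (f ⊔ g) = T f ⊔ T g)
    (hr : range T = {y : E | ∃ r : ℝ, 0 < r ∧ |y| ≤ r • x})
    (π : C(K, Z)) {f : ℕ → C(Z, ℝ)} {F : C(K, ℝ)}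
    (hlim : Tendsto (fun n => T ((f n).comp π)) atTop (𝓝 (T F))) {s t : ℝ} (hst : t < s) :
    ∃ A : Set K, IsClopen A ∧ (∀ k, s ≤ F k → k ∈ A) ∧ (∀ k, F k ≤ t → k ∉ A) := by
  classical
  -- thresholds
  obtain ⟨η, hη, hη4⟩ : ∃ η : ℝ, 0 < η ∧ 5 * η = s - t := ⟨(s - t) / 5, by linarith, by ring⟩
  set a : ℝ := t + 2 * η with ha
  set b : ℝ := t + 3 * η with hb
  have hab : a < b := by linarith
  -- a fast subsequence
  have hsub : ∀ k : ℕ, ∃ n, ‖T ((f n).comp π) - T F‖ ≤ (1 / 4) ^ k := by
    intro k
    have h1 := (Metric.tendsto_atTop.1 hlim) ((1 / 4) ^ k) (by positivity)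
    obtain ⟨N, hN⟩ := h1
    refine ⟨N, ?_⟩
    rw [← dist_eq_norm]
    exact (hN N le_rfl).le
  choose n hn using hsub
  set g : ℕ → C(Z, ℝ) := fun k => f (n k) with hg
  have hgF : ∀ k, ‖T ((g k).comp π) - T F‖ ≤ (1 / 4) ^ k := hn
  have hgg : ∀ k, ‖T ((g (k + 1) - g k).comp π)‖ ≤ 2 * (1 / 4) ^ k := by
    intro k
    have h1 : T ((g (k + 1) - g k).comp π) =
        (T ((g (k + 1)).comp π) - T F) - (T ((g k).comp π) - T F) := by
      have : (g (k + 1) - g k).comp π = (g (k + 1)).comp π - (g k).comp π := rfl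
      rw [this, map_sub]
      abel
    rw [h1]
    refine (norm_sub_le _ _).trans ?_
    have h2 := hgF (k + 1)
    have h3 := hgF k
    have h4 : ((1 : ℝ) / 4) ^ (k + 1) ≤ (1 / 4) ^ k :=
      pow_le_pow_of_le_one (by norm_num) (by norm_num) (Nat.le_succ k)
    linarith
  -- the exceptional clopen sets
  have hM : ∀ k, ∃ M : Set Z, IsClopen M ∧
      (∀ z, η * (1 / 2) ^ (k + 1) ≤ |g (k + 1) - g k| z → z ∈ M) ∧
      (∀ z ∈ M, η * (1 / 2) ^ (k + 2) < |g (k + 1) - g k| z) := fun k =>
    exists_clopen_between |g (k + 1) - g k| (by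
      have : (0 : ℝ) < (1 / 2) ^ (k + 1) := by positivity
      rw [pow_succ (1 / 2 : ℝ) (k + 1)]
      nlinarith)
  choose M hMc hM1 hM2 using hM
  have hB : ∀ k, ∃ B : Set Z, IsClopen B ∧ (∀ z, b ≤ g k z → z ∈ B) ∧ (∀ z ∈ B, a < g k z) :=
    fun k => exists_clopen_between (g k) hab
  choose B hBc hB1 hB2 using hB
  obtain ⟨A, hA0, hAs⟩ : ∃ A : ℕ → Set Z, A 0 = B 0 ∧
      ∀ k, A (k + 1) = (A k \ M k) ∪ (B (k + 1) ∩ M k) :=
    ⟨fun k => Nat.rec (B 0) (fun k S => (S \ M k) ∪ (B (k + 1) ∩ M k)) k, rfl, fun k => rfl⟩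
  have hAc : ∀ k, IsClopen (A k) := by
    intro k
    induction k with
    | zero => rw [hA0]; exact hBc 0
    | succ k ih => rw [hAs]; exact (ih.diff (hMc k)).union ((hBc (k + 1)).inter (hMc k))
  have hkey : ∀ k, (∀ z ∈ A k, a - η * (1 - (1 / 2) ^ k) < g k z) ∧
      (∀ z, z ∉ A k → g k z < b + η * (1 - (1 / 2) ^ k)) := by
    intro k
    induction k with
    | zero =>
      rw [hA0]
      refine ⟨fun z hz => ?_, fun z hz => ?_⟩
      · have := hB2 0 z hz
        simpa using this
      · by_contra hc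
        push Not at hc
        exact hz (hB1 0 z (by simpa using hc))
    | succ k ih =>
      have hp : (0 : ℝ) < (1 / 2) ^ (k + 1) := by positivity
      have hp2 : ((1 : ℝ) / 2) ^ k = 2 * (1 / 2) ^ (k + 1) := by rw [pow_succ]; ring
      have hp1 : ((1 : ℝ) / 2) ^ (k + 1) ≤ 1 := pow_le_one₀ (by norm_num) (by norm_num)
      have hsm : ∀ z, z ∉ M k → |g (k + 1) z - g k z| < η * (1 / 2) ^ (k + 1) := by
        intro z hz
        by_contra hc
        push Not at hc
        exact hz (hM1 k z hc)
      refine ⟨fun z hz => ?_, fun z hz => ?_⟩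
      · rw [hAs] at hz
        rcases hz with ⟨hz1, hz2⟩ | ⟨hz1, hz2⟩
        · have h1 := ih.1 z hz1
          have h2 := (abs_lt.1 (hsm z hz2)).1
          rw [hp2] at h1
          nlinarith
        · have h1 := hB2 (k + 1) z hz1
          nlinarith
      · rw [hAs] at hz
        by_cases hzM : z ∈ M k
        · have h1 : z ∉ B (k + 1) := fun h => hz (Or.inr ⟨h, hzM⟩)
          have h2 : g (k + 1) z < b := by
            by_contra hc
            push Not at hc
            exact h1 (hB1 (k + 1) z hc)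
          nlinarith
        · have h1 : z ∉ A k := fun h => hz (Or.inl ⟨h, hzM⟩)
          have h2 := ih.2 z h1
          have h3 := (abs_lt.1 (hsm z hzM)).2
          rw [hp2] at h2
          nlinarith
  -- the indicators converge
  set I : ℕ → C(K, ℝ) := fun k => (ind (A k)).comp π with hI
  have hI1 : ∀ k y, π y ∈ A k → I k y = 1 := fun k y hy => ind_mem (hAc k) hy
  have hI0 : ∀ k y, π y ∉ A k → I k y = 0 := fun k y hy => ind_not_mem (hAc k) hy
  have hI01 : ∀ k y, 0 ≤ I k y ∧ I k y ≤ 1 := by
    intro k y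
    by_cases hy : π y ∈ A k
    · rw [hI1 k y hy]; norm_num
    · rw [hI0 k y hy]; norm_num
  have hdist : ∀ k, dist (T (I k)) (T (I (k + 1))) ≤ (8 / η) * (1 / 2) ^ k := by
    intro k
    rw [dist_comm, dist_eq_norm, ← map_sub]
    set c : ℝ := (η * (1 / 2) ^ (k + 2))⁻¹ with hc
    have hcpos : 0 < c := by positivity
    have h1 : ‖T (I (k + 1) - I k)‖ ≤ ‖T (c • (g (k + 1) - g k).comp π)‖ := by
      apply T_norm_mono hsup
      intro y
      show |I (k + 1) y - I k y| ≤ |c * (g (k + 1) (π y) - g k (π y))|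
      by_cases hy : π y ∈ M k
      · have h2 := hM2 k (π y) hy
        have h3 : |g (k + 1) - g k| (π y) = |g (k + 1) (π y) - g k (π y)| := rfl
        rw [h3] at h2
        rw [abs_mul, abs_of_pos hcpos]
        have h4 : |I (k + 1) y - I k y| ≤ 1 := by
          rw [abs_le]
          have e1 := hI01 (k + 1) y
          have e2 := hI01 k y
          constructor <;> linarith
        refine h4.trans ?_
        rw [hc, ← div_eq_inv_mul, le_div_iff₀ (by positivity), one_mul]
        exact h2.le
      · have h2 : (π y ∈ A (k + 1) ↔ π y ∈ A k) := by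
          rw [hAs]
          constructor
          · rintro (h | h)
            · exact h.1
            · exact (hy h.2).elim
          · intro h
            exact Or.inl ⟨h, hy⟩
        have h3 : I (k + 1) y = I k y := by
          by_cases hyA : π y ∈ A k
          · rw [hI1 k y hyA, hI1 (k + 1) y (h2.2 hyA)]
          · rw [hI0 k y hyA, hI0 (k + 1) y (fun h => hyA (h2.1 h))]
        rw [h3, sub_self, abs_zero]
        exact abs_nonneg _
    refine h1.trans ?_
    rw [map_smul, norm_smul, Real.norm_eq_abs, abs_of_pos hcpos]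
    calc c * ‖T ((g (k + 1) - g k).comp π)‖ ≤ c * (2 * (1 / 4) ^ k) :=
          mul_le_mul_of_nonneg_left (hgg k) hcpos.le
      _ = (8 / η) * (1 / 2) ^ k := by
          have e1 : ((1 : ℝ) / 4) ^ k = (1 / 2) ^ k * (1 / 2) ^ k := by
            rw [← mul_pow]; norm_num
          have e2 : ((1 : ℝ) / 2) ^ k ≠ 0 := by positivity
          rw [hc, e1, pow_add]
          field_simp
          ring
  have hcau : CauchySeq fun k => T (I k) :=
    cauchySeq_of_le_geometric (1 / 2) (8 / η) (by norm_num) hdist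
  obtain ⟨G, hG⟩ := T_complete (x := x) hsup hr (F := I) (c := 1) one_pos (by
    intro k y
    show |I k y| ≤ 1 * 1
    rw [mul_one, abs_of_nonneg (hI01 k y).1]
    exact (hI01 k y).2) hcau
  have hGn : Tendsto (fun k => ‖T (G - I k)‖) atTop (𝓝 0) := by
    have := tendsto_iff_norm_sub_tendsto_zero.1 hG
    refine this.congr fun k => ?_
    rw [← map_sub, ← norm_neg, ← map_neg, neg_sub]
  have hFn : Tendsto (fun k => ‖T (F - (g k).comp π)‖) atTop (𝓝 0) := by
    refine squeeze_zero (fun k => norm_nonneg _) (fun k => ?_)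
      (tendsto_pow_atTop_nhds_zero_of_lt_one (by norm_num : (0 : ℝ) ≤ 1 / 4) (by norm_num))
    rw [map_sub, ← norm_neg, neg_sub]
    exact hgF k
  have hInorm : ∀ k, ‖I k‖ ≤ 1 := fun k => by
    rw [ContinuousMap.norm_le _ zero_le_one]
    intro y
    rw [Real.norm_eq_abs, abs_of_nonneg (hI01 k y).1]
    exact (hI01 k y).2
  have hzero : ∀ {h : C(K, ℝ)} {c : ℝ} {q : ℕ → ℝ}, (∀ k, ‖T h‖ ≤ c * ‖T (G - I k)‖ + q k) →
      Tendsto q atTop (𝓝 0) → h = 0 := by
    intro h c q hle hq
    have h1 : ‖T h‖ ≤ 0 := by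
      have h2 : Tendsto (fun k => c * ‖T (G - I k)‖ + q k) atTop (𝓝 (c * 0 + 0)) :=
        (hGn.const_mul c).add hq
      rw [mul_zero, add_zero] at h2
      exact ge_of_tendsto' h2 hle
    exact hinj (by rw [norm_le_zero_iff.1 h1, map_zero])
  -- the limit is idempotent
  have hidem : G - G * G = 0 := by
    refine hzero (c := ‖1 - G‖ + 1) (q := fun _ => 0) (fun k => ?_) tendsto_const_nhds
    have h1 : G - G * G = (1 - G - I k) * (G - I k) := by
      ext y
      show G y - G y * G y = (1 - G y - I k y) * (G y - I k y)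
      have h2 : I k y * I k y = I k y := by
        by_cases hy : π y ∈ A k
        · rw [hI1 k y hy]; ring
        · rw [hI0 k y hy]; ring
      linear_combination -h2
    rw [h1, add_zero]
    refine (T_mul hsup _ _).trans (mul_le_mul_of_nonneg_right ?_ (norm_nonneg _))
    exact (norm_sub_le _ _).trans (by linarith [hInorm k])
  have hG01 : ∀ y, G y = 0 ∨ G y = 1 := by
    intro y
    have h1 := DFunLike.congr_fun hidem y
    have h2 : G y - G y * G y = 0 := h1
    have h3 : G y * (1 - G y) = 0 := by linarith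
    rcases mul_eq_zero.1 h3 with h | h
    · exact Or.inl h
    · exact Or.inr (by linarith)
  -- the two inequalities
  have hlow : ((a - η) • (1 : C(K, ℝ)) - F) ⊔ 0 = 0 ∨ True := Or.inr trivial
  have hG1 : ∀ y, G y = 1 → a - η ≤ F y := by
    set c₁ : C(K, ℝ) := (a - η) • (1 : C(K, ℝ)) with hc₁
    set u : C(K, ℝ) := (c₁ - F) ⊔ 0 with hu
    have huG : u * G = 0 := by
      refine hzero (c := ‖u‖) (q := fun k => ‖T (F - (g k).comp π)‖) (fun k => ?_) hFn
      set uk : C(K, ℝ) := (c₁ - (g k).comp π) ⊔ 0 with huk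
      have h0 : uk * I k = 0 := by
        ext y
        show max ((a - η) * 1 - g k (π y)) 0 * I k y = 0
        by_cases hy : π y ∈ A k
        · have h1 := (hkey k).1 (π y) hy
          have h2 : (0 : ℝ) ≤ (1 / 2) ^ k := by positivity
          rw [max_eq_right (by nlinarith), zero_mul]
        · rw [hI0 k y hy, mul_zero]
      have h1 : u * G = u * (G - I k) + I k * (u - uk) := by
        have : u * G = u * (G - I k) + I k * (u - uk) + uk * I k := by ring
        rw [this, h0, add_zero]
      rw [h1, map_add]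
      refine (norm_add_le _ _).trans (add_le_add (T_mul hsup _ _) ?_)
      refine (T_mul hsup _ _).trans ?_
      have h2 : ‖T (u - uk)‖ ≤ ‖T (F - (g k).comp π)‖ := by
        apply T_norm_mono hsup
        intro y
        show |max ((a - η) * 1 - F y) 0 - max ((a - η) * 1 - g k (π y)) 0| ≤ |F y - g k (π y)|
        refine (abs_max_sub_max_le_abs _ _ _).trans (le_of_eq ?_)
        rw [abs_sub_comm]
        congr 1
        ring
      calc ‖I k‖ * ‖T (u - uk)‖ ≤ 1 * ‖T (u - uk)‖ :=
            mul_le_mul_of_nonneg_right (hInorm k) (norm_nonneg _)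
        _ ≤ _ := by rw [one_mul]; exact h2
    intro y hy
    have h1 := DFunLike.congr_fun huG y
    have h2 : max ((a - η) * 1 - F y) 0 * G y = 0 := h1
    rw [hy, mul_one] at h2
    have := le_max_left ((a - η) * 1 - F y) 0
    rw [h2] at this
    linarith
  have hG0 : ∀ y, G y = 0 → F y ≤ b + η := by
    set c₁ : C(K, ℝ) := (b + η) • (1 : C(K, ℝ)) with hc₁
    set u : C(K, ℝ) := (F - c₁) ⊔ 0 with hu
    have huG : u * (1 - G) = 0 := by
      refine hzero (c := ‖u‖) (q := fun k => 2 * ‖T (F - (g k).comp π)‖) (fun k => ?_) (by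
        have := hFn.const_mul 2
        rwa [mul_zero] at this)
      set uk : C(K, ℝ) := ((g k).comp π - c₁) ⊔ 0 with huk
      have h0 : uk * (1 - I k) = 0 := by
        ext y
        show max (g k (π y) - (b + η) * 1) 0 * (1 - I k y) = 0
        by_cases hy : π y ∈ A k
        · rw [hI1 k y hy, sub_self, mul_zero]
        · have h1 := (hkey k).2 (π y) hy
          have h2 : (0 : ℝ) ≤ (1 / 2) ^ k := by positivity
          rw [max_eq_right (by nlinarith), zero_mul]
      have h1 : u * (1 - G) = (-u) * (G - I k) + (1 - I k) * (u - uk) := by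
        have : u * (1 - G) = (-u) * (G - I k) + (1 - I k) * (u - uk) + uk * (1 - I k) := by ring
        rw [this, h0, add_zero]
      rw [h1, map_add]
      refine (norm_add_le _ _).trans (add_le_add ?_ ?_)
      · have := T_mul hsup (-u) (G - I k)
        rwa [norm_neg] at this
      refine (T_mul hsup _ _).trans ?_
      have h2 : ‖T (u - uk)‖ ≤ ‖T (F - (g k).comp π)‖ := by
        apply T_norm_mono hsup
        intro y
        show |max (F y - (b + η) * 1) 0 - max (g k (π y) - (b + η) * 1) 0| ≤ |F y - g k (π y)|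
        refine (abs_max_sub_max_le_abs _ _ _).trans (le_of_eq ?_)
        congr 1
        ring
      have h3 : ‖1 - I k‖ ≤ 2 := by
        rw [ContinuousMap.norm_le _ zero_le_two]
        intro y
        show |1 - I k y| ≤ 2
        have := hI01 k y
        rw [abs_le]
        constructor <;> linarith
      calc ‖1 - I k‖ * ‖T (u - uk)‖ ≤ 2 * ‖T (u - uk)‖ :=
            mul_le_mul_of_nonneg_right h3 (norm_nonneg _)
        _ ≤ _ := mul_le_mul_of_nonneg_left h2 zero_le_two
    intro y hy
    have h1 := DFunLike.congr_fun huG y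
    have h2 : max (F y - (b + η) * 1) 0 * (1 - G y) = 0 := h1
    rw [hy, sub_zero, mul_one] at h2
    have := le_max_left (F y - (b + η) * 1) 0
    rw [h2] at this
    linarith
  refine ⟨{y | 1 / 2 < G y}, ⟨?_, isOpen_lt continuous_const G.continuous⟩, ?_, ?_⟩
  · have : {y | 1 / 2 < G y} = {y | 1 / 2 ≤ G y} := by
      ext y
      simp only [mem_setOf_eq]
      rcases hG01 y with h | h
      · rw [h]; norm_num
      · rw [h]; norm_num
    rw [this]
    exact isClosed_le continuous_const G.continuous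
  · intro y hy
    show 1 / 2 < G y
    rcases hG01 y with h | h
    · have := hG0 y h
      linarith
    · rw [h]; norm_num
  · intro y hy hmem
    have hmem' : 1 / 2 < G y := hmem
    rcases hG01 y with h | h
    · rw [h] at hmem'
      norm_num at hmem'
    · have := hG1 y h
      linarith

end Closed

/-- The Stone space of the algebra of clopen sets: ultrafilters of clopen sets, written as two
valued functions, with the topology of pointwise convergence. -/
def StoneClop (K : Type u) [TopologicalSpace K] : Type u :=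
  {p : Clopens K → Bool // p ⊤ = true ∧ (∀ A B, p (A ⊓ B) = (p A && p B)) ∧ ∀ A, p Aᶜ = !(p A)}

instance {K : Type u} [TopologicalSpace K] : TopologicalSpace (StoneClop K) :=
  inferInstanceAs (TopologicalSpace {p : Clopens K → Bool // _})

section Stone

variable {K : Type u} [TopologicalSpace K]

instance : T2Space (StoneClop K) := inferInstanceAs (T2Space {p : Clopens K → Bool // _})

instance : TotallyDisconnectedSpace (StoneClop K) :=
  inferInstanceAs (TotallyDisconnectedSpace {p : Clopens K → Bool // _})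

instance : CompactSpace (StoneClop K) := by
  have hcl : IsClosed {p : Clopens K → Bool | p ⊤ = true ∧ (∀ A B, p (A ⊓ B) = (p A && p B)) ∧
      ∀ A, p Aᶜ = !(p A)} := by
    have e1 : IsClosed {p : Clopens K → Bool | p ⊤ = true} :=
      isClosed_eq (continuous_apply _) continuous_const
    have e2 : IsClosed {p : Clopens K → Bool | ∀ A B, p (A ⊓ B) = (p A && p B)} := by
      simp only [setOf_forall]
      refine isClosed_iInter fun A => isClosed_iInter fun B => ?_
      refine isClosed_eq (continuous_apply _) ?_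
      have h1 : Continuous (fun q : Bool × Bool => q.1 && q.2) := continuous_of_discreteTopology
      have h2 : Continuous (fun p : Clopens K → Bool => (p A, p B)) :=
        (continuous_apply A).prodMk (continuous_apply B)
      exact h1.comp h2
    have e3 : IsClosed {p : Clopens K → Bool | ∀ A, p Aᶜ = !(p A)} := by
      simp only [setOf_forall]
      refine isClosed_iInter fun A => ?_
      refine isClosed_eq (continuous_apply _) ?_
      have h1 : Continuous (fun q : Bool => !q) := continuous_of_discreteTopology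
      have h2 : Continuous (fun p : Clopens K → Bool => p A) := continuous_apply A
      exact h1.comp h2
    exact e1.inter (e2.inter e3)
  exact isCompact_iff_compactSpace.1 hcl.isCompact

open Classical in
/-- The canonical map to the Stone space. -/
noncomputable def toStone : C(K, StoneClop K) where
  toFun k := ⟨fun A => decide (k ∈ A), decide_eq_true (show k ∈ (⊤ : Clopens K) from trivial),
    by
      intro A B
      have h : k ∈ A ⊓ B ↔ k ∈ A ∧ k ∈ B := Iff.rfl
      simp only [h, Bool.decide_and],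
    by
      intro A
      have h : k ∈ Aᶜ ↔ ¬ k ∈ A := Iff.rfl
      simp only [h, decide_not]⟩
  continuous_toFun := by
    refine Continuous.subtype_mk (continuous_pi fun A => ?_) _
    refine (IsLocallyConstant.iff_continuous _).1 ?_
    rw [IsLocallyConstant.iff_exists_open]
    intro k
    by_cases hk : k ∈ A
    · exact ⟨A, A.isClopen.isOpen, hk, fun k' hk' => by simp [hk, (show k' ∈ A from hk')]⟩
    · refine ⟨(A : Set K)ᶜ, A.isClopen.compl.isOpen, hk, fun k' hk' => ?_⟩
      have : k' ∉ A := hk'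
      simp [hk, this]

lemma toStone_eq_iff {k k' : K} : toStone k = toStone k' ↔ ∀ A : Clopens K, k ∈ A ↔ k' ∈ A := by
  classical
  constructor
  · intro h A
    have h1 := congrFun (congrArg Subtype.val h) A
    have h2 : decide (k ∈ A) = decide (k' ∈ A) := h1
    exact decide_eq_decide.1 h2
  · intro h
    apply Subtype.ext
    funext A
    show decide (k ∈ A) = decide (k' ∈ A)
    exact decide_eq_decide.2 (h A)

lemma toStone_surjective [CompactSpace K] : Function.Surjective (toStone (K := K)) := by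
  classical
  rintro ⟨p, hp1, hp2, hp3⟩
  -- the sets of the ultrafilter have the finite intersection property
  have hbot : p ⊥ = false := by
    have := hp3 ⊤
    rw [compl_top, hp1] at this
    exact this
  have hfin : ∀ s : Finset {A : Clopens K // p A = true}, (⋂ A ∈ s, (A.1 : Set K)).Nonempty := by
    intro s
    have h1 : p (s.inf fun A => A.1) = true := by
      induction s using Finset.induction_on with
      | empty => simpa using hp1
      | insert A s hA ih => rw [Finset.inf_insert, hp2, A.2, ih]; rfl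
    have h2 : (s.inf fun A => A.1) ≠ ⊥ := by
      intro h
      rw [h, hbot] at h1
      exact Bool.noConfusion h1
    have h3 : ((s.inf fun A => A.1 : Clopens K) : Set K).Nonempty := by
      by_contra hc
      rw [not_nonempty_iff_eq_empty] at hc
      apply h2
      exact SetLike.coe_injective hc
    obtain ⟨k, hk⟩ := h3
    refine ⟨k, mem_iInter₂.2 fun A hA => ?_⟩
    have : (s.inf fun A => A.1) ≤ A.1 := Finset.inf_le hA
    exact this hk
  obtain ⟨k, hk⟩ : (⋂ A : {A : Clopens K // p A = true}, (A.1 : Set K)).Nonempty := by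
    apply CompactSpace.iInter_nonempty
    · exact fun A => A.1.isClopen.isClosed
    · exact hfin
  refine ⟨k, Subtype.ext ?_⟩
  funext A
  show decide (k ∈ A) = p A
  by_cases hA : p A = true
  · have := mem_iInter.1 hk ⟨A, hA⟩
    rw [hA]
    exact decide_eq_true this
  · have hA' : p Aᶜ = true := by
      rw [hp3]
      simp [Bool.eq_false_of_not_eq_true hA]
    have := mem_iInter.1 hk ⟨Aᶜ, hA'⟩
    have h2 : k ∉ A := this
    rw [Bool.eq_false_of_not_eq_true hA]
    exact decide_eq_false h2

end Stone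

/-- Main theorem. -/
theorem sick_stone {K : Type u} [TopologicalSpace K] [CompactSpace K] [T2Space K]
    (hK : SickU.{u, v} K) : SickU.{u, v} (StoneClop K) := by
  obtain ⟨E, _, _, _, _, _, _, _, _, x, T, hx, hinj, hsup, hinf, hT1, hr⟩ := hK
  refine sick_of_closed hx hinj hsup hinf hT1 hr toStone toStone_surjective ?_
  intro f F hlim
  have hfib : ∀ k k' : K, toStone k = toStone k' → F k = F k' := by
    have key : ∀ k k' : K, toStone k = toStone k' → ¬ F k < F k' := by
      intro k k' hkk hlt
      obtain ⟨A, hA, hA1, hA2⟩ := separated hinj hsup hr toStone hlim hlt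
      have h1 := (toStone_eq_iff.1 hkk) ⟨A, hA⟩
      exact hA2 k le_rfl (h1.2 (hA1 k' le_rfl))
    intro k k' h
    exact le_antisymm (not_lt.1 (key k' k h.symm)) (not_lt.1 (key k k' h))
  have hq : IsQuotientMap (toStone (K := K)) :=
    IsQuotientMap.of_surjective_continuous toStone_surjective toStone.continuous
  refine ⟨hq.lift F hfib, ?_⟩
  ext k
  exact (DFunLike.congr_fun (hq.lift_comp F hfib) k).symm

end Pool.Agent.Q304.SK
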