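import Mathlib
import Pool.Agent.Q304.SK.Sick

/-!
# Sick products are metrizable
-/

set_option autoImplicit false

open Filter Topology TopologicalSpace Set

namespace Pool.Agent.Q304.SK

universe u v w

section

variable {K : Type u} {L : Type w} [TopologicalSpace K] [TopologicalSpace L]

/-- Function of the second variable. -/
def sndc (g : C(L, ℝ)) : C(K × L, ℝ) := g.comp ⟨Prod.snd, continuous_snd⟩

/-- Function of the first variable. -/
def fstc (g : C(K, ℝ)) : C(K × L, ℝ) := g.comp ⟨Prod.fst, continuous_fst⟩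

lemma sndc_apply (g : C(L, ℝ)) (p : K × L) : sndc g p = g p.2 := rfl

lemma fstc_apply (g : C(K, ℝ)) (p : K × L) : (fstc g : C(K × L, ℝ)) p = g p.1 := rfl

variable {E : Type v} [NormedAddCommGroup E] [Lattice E]
  [HasSolidNorm E] [IsOrderedAddMonoid E] [NormedSpace ℝ E] [PosSMulMono ℝ E]
  {T : C(K × L, ℝ) →ₗ[ℝ] E}

/-- If the norm is bounded below on norm one functions of the second variable, then the second
factor is metrizable. -/
lemma metrizable_of_bound [SeparableSpace E] [CompactSpace L] [T2Space L] [Nonempty L]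
    (hT : ∀ f g, T (f ⊔ g) = T f ⊔ T g)
    {δ : ℝ} (hδ : 0 < δ)
    (h : ∀ g : C(L, ℝ), 0 ≤ g → g ≤ 1 → (∃ l, g l = 1) → δ < ‖T (sndc g)‖) :
    MetrizableSpace L := by
  have hb : ∀ g : C(L, ℝ), δ * ‖g‖ ≤ ‖T (sndc g)‖ := by
    intro g
    rcases eq_or_ne g 0 with rfl | hg
    · rw [norm_zero, mul_zero]; exact norm_nonneg _
    have hpos : 0 < ‖g‖ := norm_pos_iff.2 hg
    obtain ⟨l, hl⟩ : ∃ l, |g l| = ‖g‖ := by
      obtain ⟨l, -, hl⟩ := isCompact_univ.exists_isMaxOn univ_nonempty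
        (f := fun l => |g l|) (g.continuous.abs.continuousOn)
      refine ⟨l, le_antisymm (g.norm_coe_le_norm l) ?_⟩
      rw [ContinuousMap.norm_le _ (abs_nonneg _)]
      exact fun l' => hl (mem_univ l')
    set g' : C(L, ℝ) := (‖g‖⁻¹) • |g| with hg'
    have h0 : 0 ≤ g' := fun l => by
      show (0 : ℝ) ≤ ‖g‖⁻¹ * |g l|
      positivity
    have h1 : g' ≤ 1 := fun l => by
      show ‖g‖⁻¹ * |g l| ≤ (1 : ℝ)
      rw [inv_mul_le_iff₀ hpos, mul_one]
      exact g.norm_coe_le_norm l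
    have h2 : g' l = 1 := by
      show ‖g‖⁻¹ * |g l| = (1 : ℝ)
      rw [hl]
      exact inv_mul_cancel₀ hpos.ne'
    have h3 := h g' h0 h1 ⟨l, h2⟩
    have h4 : T (sndc g') = ‖g‖⁻¹ • T |sndc g| := by
      rw [← map_smul]; rfl
    rw [h4, norm_smul, ← T_abs hT, norm_abs_eq_norm, norm_inv, norm_norm] at h3
    rw [lt_inv_mul_iff₀ hpos] at h3
    linarith
  set Θ : C(L, ℝ) →ₗ[ℝ] E :=
    { toFun := fun g => T (sndc g)
      map_add' := fun f g => by rw [← map_add]; rfl
      map_smul' := fun c g => by rw [RingHom.id_apply, ← map_smul]; rfl } with hΘ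
  have hup : ∀ g : C(L, ℝ), ‖Θ g‖ ≤ ‖T 1‖ * ‖g‖ := by
    intro g
    have h1 : ‖T (sndc g)‖ ≤ ‖T (‖g‖ • (1 : C(K × L, ℝ)))‖ := by
      apply T_norm_mono hT
      intro p
      show |g p.2| ≤ |‖g‖ * 1|
      rw [mul_one, abs_of_nonneg (norm_nonneg g)]
      exact g.norm_coe_le_norm p.2
    rw [map_smul, norm_smul, norm_norm, mul_comm] at h1
    exact h1
  have hcont : Continuous Θ := (Θ.mkContinuous _ hup).continuous
  have hanti : AntilipschitzWith (Real.toNNReal δ⁻¹) Θ := by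
    refine AddMonoidHomClass.antilipschitz_of_bound Θ fun g => ?_
    rw [Real.coe_toNNReal _ (inv_pos.2 hδ).le, ← div_eq_inv_mul, le_div_iff₀ hδ, mul_comm]
    exact hb g
  have hemb : IsEmbedding Θ := (hanti.isUniformEmbedding
    (Θ.mkContinuous _ hup).uniformContinuous).isEmbedding
  have : SecondCountableTopology E := UniformSpace.secondCountable_of_separable E
  have : SecondCountableTopology C(L, ℝ) := hemb.secondCountableTopology
  exact metrizable_of_separable L

/-- One step of the choice. -/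
lemma exists_step [CompactSpace L] [T2Space L] (hT : ∀ f g, T (f ⊔ g) = T f ⊔ T g)
    (hinj : Function.Injective T) [Nonempty K]
    (hsmall : ∀ δ > 0, ∃ g : C(L, ℝ), 0 ≤ g ∧ g ≤ 1 ∧ (∃ l, g l = 1) ∧ ‖T (sndc g)‖ ≤ δ) :
    ∃ l₀ : L, ∀ (h : C(L, ℝ)), h l₀ = 0 → ∀ δ > 0, ∃ (g : C(L, ℝ)) (l : L), 0 ≤ g ∧ g ≤ 1 ∧
      g l₀ = 0 ∧ ‖T (sndc g)‖ ≤ δ ∧ h l < 1 / 4 ∧ 1 / 2 < g l := by
  choose! G hG0 hG1 hGl hGd using hsmall
  have hp : ∀ n : ℕ, (0 : ℝ) < 1 / ((n : ℝ) + 1) := fun n => by positivity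
  choose l hl using fun n : ℕ => hGl _ (hp n)
  obtain ⟨l₀, hl₀⟩ : ∃ l₀, MapClusterPt l₀ atTop l := by
    obtain ⟨l₀, -, h⟩ := isCompact_univ.exists_mapClusterPt (f := (atTop : Filter ℕ)) (u := l)
      (by simp)
    exact ⟨l₀, h⟩
  refine ⟨l₀, fun h hh0 δ hδ => ?_⟩
  have key : ∀ V : Set L, IsOpen V → l₀ ∈ V → ∀ δ > 0, ∃ g : C(L, ℝ), 0 ≤ g ∧ g ≤ 1 ∧
      ‖T (sndc g)‖ ≤ δ ∧ ∃ l ∈ V, 1 / 2 < g l := by
    intro V hV hlV δ hδ
    obtain ⟨N, hN⟩ := exists_nat_one_div_lt hδ
    obtain ⟨n, hnN, hn⟩ := (frequently_atTop.1 (hl₀.frequently (hV.mem_nhds hlV))) N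
    refine ⟨G (1 / ((n : ℝ) + 1)), hG0 _ (hp n), hG1 _ (hp n), (hGd _ (hp n)).trans ?_,
      l n, hn, by rw [hl n]; norm_num⟩
    refine le_trans ?_ hN.le
    apply one_div_le_one_div_of_le (by positivity)
    have : (N : ℝ) ≤ n := by exact_mod_cast hnN
    linarith
  -- the cluster point is not isolated
  have hiso : ¬ IsOpen ({l₀} : Set L) := by
    intro ho
    set χ : C(L, ℝ) := ⟨({l₀} : Set L).indicator fun _ => (1 : ℝ),
      continuous_const.indicator (by
        rw [IsClopen.frontier_eq ⟨isClosed_singleton, ho⟩]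
        intro a ha
        exact ha.elim)⟩ with hχ
    have hχ1 : χ l₀ = 1 := by simp [hχ]
    have hz : ‖T (sndc χ)‖ ≤ 0 := by
      refine le_of_forall_pos_le_add fun ε hε => ?_
      obtain ⟨g, g0, g1, gd, l', hl', hgl'⟩ := key {l₀} ho rfl (ε / 2) (by positivity)
      have hl'' : l' = l₀ := hl'
      rw [hl''] at hgl'
      have h1 : ‖T (sndc χ)‖ ≤ ‖T ((2 : ℝ) • sndc g)‖ := by
        apply T_norm_mono hT
        intro p
        show |χ p.2| ≤ |2 * g p.2|
        by_cases hp : p.2 = l₀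
        · rw [hp, hχ1, abs_one, abs_of_pos (by linarith)]
          linarith
        · have : χ p.2 = 0 := by simp [hχ, hp]
          rw [this, abs_zero]
          exact abs_nonneg _
      rw [map_smul, norm_smul, Real.norm_eq_abs, abs_of_pos (by norm_num : (0 : ℝ) < 2)] at h1
      linarith
    have h2 : T (sndc χ) = 0 := norm_le_zero_iff.1 hz
    have h3 : (sndc χ : C(K × L, ℝ)) = 0 := hinj (by rw [h2, map_zero])
    obtain ⟨κ⟩ := ‹Nonempty K›
    have h4 := DFunLike.congr_fun h3 (κ, l₀)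
    rw [sndc_apply, hχ1] at h4
    exact one_ne_zero h4
  set V : Set L := {l | h l < 1 / 4} with hVdef
  have hV : IsOpen V := isOpen_lt h.continuous continuous_const
  have hlV : l₀ ∈ V := by show h l₀ < 1 / 4; rw [hh0]; norm_num
  obtain ⟨g, g0, g1, gd, l', hl', hgl'⟩ := key V hV hlV δ hδ
  obtain ⟨l₁, hl₁V, hl₁g, hne⟩ : ∃ l₁ ∈ V, 1 / 2 < g l₁ ∧ l₁ ≠ l₀ := by
    by_contra hc
    push Not at hc
    apply hiso
    have : ({l₀} : Set L) = V ∩ {l | 1 / 2 < g l} := by
      ext l₂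
      constructor
      · rintro rfl
        have := hc l' hl' hgl'
        rw [this] at hgl'
        exact ⟨hlV, hgl'⟩
      · rintro ⟨a1, a2⟩
        exact hc l₂ a1 a2
    rw [this]
    exact hV.inter (isOpen_lt continuous_const g.continuous)
  obtain ⟨χ, hχ0, hχ1, hχ⟩ := exists_continuous_zero_one_of_isClosed (X := L)
    (isClosed_singleton (x := l₀)) (isClosed_singleton (x := l₁))
    (disjoint_singleton.2 hne.symm)
  have e0 : χ l₀ = 0 := hχ0 (mem_singleton _)
  have e1 : χ l₁ = 1 := hχ1 (mem_singleton _)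
  refine ⟨χ * g, l₁, ?_, ?_, ?_, ?_, hl₁V, ?_⟩
  · intro l₂
    exact mul_nonneg (hχ l₂).1 (g0 l₂)
  · intro l₂
    exact mul_le_one₀ (hχ l₂).2 (g0 l₂) (g1 l₂)
  · rw [ContinuousMap.mul_apply, e0, zero_mul]
  · refine le_trans (T_norm_mono hT ?_) gd
    intro p
    show |χ p.2 * g p.2| ≤ |g p.2|
    rw [abs_mul]
    refine mul_le_of_le_one_left (abs_nonneg _) ?_
    rw [abs_of_nonneg (hχ p.2).1]
    exact (hχ p.2).2
  · rw [ContinuousMap.mul_apply, e1, one_mul]
    exact hl₁g

end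

/-- The main step: the second factor of a sick product with infinite first factor is metrizable. -/
theorem metrizable_snd {K : Type u} {L : Type w} [TopologicalSpace K] [TopologicalSpace L]
    [CompactSpace K] [T2Space K] [Infinite K] [CompactSpace L] [T2Space L]
    (hS : Sick.{max u w, v} (K × L)) : MetrizableSpace L := by
  classical
  obtain ⟨E, _, _, _, _, _, _, _, _, x, T, hx, hinj, hsup, hinf, hr⟩ := hS
  rcases isEmpty_or_nonempty L with hL | hL
  · infer_instance
  by_contra hnm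
  have hsmall : ∀ δ > 0, ∃ g : C(L, ℝ), 0 ≤ g ∧ g ≤ 1 ∧ (∃ l, g l = 1) ∧
      ‖T (sndc g)‖ ≤ δ := by
    intro δ hδ
    by_contra hc
    push Not at hc
    exact hnm (metrizable_of_bound hsup hδ hc)
  obtain ⟨l₀, hstep⟩ := exists_step hsup hinj hsmall
  choose! G Λ h1 h2 h3 h4 h5 h6 using hstep
  -- the recursive sequence
  let H : ℕ → {h : C(L, ℝ) // h l₀ = 0} := fun n => Nat.rec (⟨0, rfl⟩ : {h : C(L, ℝ) // h l₀ = 0})
    (fun n h => ⟨h.1 ⊔ G h.1 ((1 / 2) ^ n), by
      rw [ContinuousMap.sup_apply, h.2, h3 h.1 h.2 _ (by positivity)]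
      exact sup_idem _⟩) n
  set hh : ℕ → C(L, ℝ) := fun n => (H n).1 with hhdef
  have hh0 : hh 0 = 0 := rfl
  set g : ℕ → C(L, ℝ) := fun n => G (hh n) ((1 / 2) ^ n) with hgdef
  set l : ℕ → L := fun n => Λ (hh n) ((1 / 2) ^ n) with hldef
  have hhs : ∀ n, hh (n + 1) = hh n ⊔ g n := fun n => rfl
  have hhl : ∀ n, hh n l₀ = 0 := fun n => (H n).2
  have g0 : ∀ n, 0 ≤ g n := fun n => h1 _ (hhl n) _ (by positivity)
  have g1 : ∀ n, g n ≤ 1 := fun n => h2 _ (hhl n) _ (by positivity)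
  have gd : ∀ n, ‖T (sndc (g n))‖ ≤ (1 / 2) ^ n := fun n => h4 _ (hhl n) _ (by positivity)
  have hl1 : ∀ n, hh n (l n) < 1 / 4 := fun n => h5 _ (hhl n) _ (by positivity)
  have hl2 : ∀ n, 1 / 2 < g n (l n) := fun n => h6 _ (hhl n) _ (by positivity)
  have hhmono : Monotone hh := monotone_nat_of_le_succ fun n => by rw [hhs]; exact le_sup_left
  -- disjoint open sets in the first factor
  obtain ⟨U, hUi, hUo, hUd⟩ := exists_seq_infinite_isOpen_pairwise_disjoint K
  choose κ hκ using fun n => (hUi n).nonempty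
  have hbump : ∀ n, ∃ f : C(K, ℝ), f (κ n) = 1 ∧ (∀ y ∉ U n, f y = 0) ∧ ∀ y, f y ∈ Icc (0 : ℝ) 1 := by
    intro n
    obtain ⟨f, hf0, hf1, hf⟩ := exists_continuous_zero_one_of_isClosed (X := K)
      (hUo n).isClosed_compl (isClosed_singleton (x := κ n))
      (by rw [disjoint_singleton_right]; exact fun h => h (hκ n))
    exact ⟨f, hf1 (mem_singleton _), fun y hy => hf0 hy, hf⟩
  choose b hb1 hb0 hbI using hbump
  have hbκ : ∀ m n, m ≠ n → b m (κ n) = 0 := by
    intro m n hmn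
    apply hb0
    intro hmem
    exact (Set.disjoint_left.1 (hUd hmn)) hmem (hκ n)
  -- cut-offs
  set a : ℕ → C(K, ℝ) := fun m => 1 - (1 ⊓ ((2 : ℝ) • b m)) with hadef
  have ha : ∀ m y, a m y = 1 - min 1 (2 * b m y) := fun m y => rfl
  have haI : ∀ m y, a m y ∈ Icc (0 : ℝ) 1 := by
    intro m y
    rw [ha]
    have := (hbI m y).1
    constructor
    · have := min_le_left 1 (2 * b m y); linarith
    · have : 0 ≤ min 1 (2 * b m y) := le_min zero_le_one (by linarith)
      linarith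
  set uu : ℕ → C(K, ℝ) := fun n => ∏ m ∈ Finset.range n, a m with huudef
  have huu : ∀ n y, uu n y = ∏ m ∈ Finset.range n, a m y := fun n y => by
    rw [huudef]; exact ContinuousMap.prod_apply _ _ _
  have huI : ∀ n y, uu n y ∈ Icc (0 : ℝ) 1 := fun n y => by
    rw [huu]
    exact ⟨Finset.prod_nonneg fun m _ => (haI m y).1,
      Finset.prod_le_one (fun m _ => (haI m y).1) fun m _ => (haI m y).2⟩
  have huκ : ∀ n m, n ≤ m → uu n (κ m) = 1 := by
    intro n m hnm
    rw [huu]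
    refine Finset.prod_eq_one fun i hi => ?_
    rw [ha, hbκ i m (by have := Finset.mem_range.1 hi; omega), mul_zero]
    norm_num
  have hu0 : ∀ n m y, m < n → 1 / 2 < b m y → uu n y = 0 := by
    intro n m y hmn hby
    rw [huu]
    refine Finset.prod_eq_zero (Finset.mem_range.2 hmn) ?_
    rw [ha, min_eq_left (by linarith)]
    norm_num
  -- the sequence in the product
  set F : ℕ → C(K × L, ℝ) := fun n => Nat.rec (0 : C(K × L, ℝ))
    (fun n f => f ⊔ (fstc (uu n) * sndc (g n))) n with hFdef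
  have hF0 : F 0 = 0 := rfl
  have hFs : ∀ n, F (n + 1) = F n ⊔ (fstc (uu n) * sndc (g n)) := fun n => rfl
  have hug0 : ∀ n, ∀ p : K × L, 0 ≤ (fstc (uu n) * sndc (g n) : C(K × L, ℝ)) p := fun n p =>
    mul_nonneg (huI n p.1).1 (g0 n p.2)
  have hug1 : ∀ n, ∀ p : K × L, (fstc (uu n) * sndc (g n) : C(K × L, ℝ)) p ≤ 1 := fun n p =>
    mul_le_one₀ (huI n p.1).2 (g0 n p.2) (g1 n p.2)
  have hFI : ∀ n, ∀ p : K × L, 0 ≤ F n p ∧ F n p ≤ 1 := by
    intro n p
    induction n with
    | zero => rw [hF0]; exact ⟨le_rfl, zero_le_one⟩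
    | succ n ih =>
      rw [hFs, ContinuousMap.sup_apply]
      exact ⟨ih.1.trans le_sup_left, sup_le ih.2 (hug1 n p)⟩
  have hdist : ∀ n, dist (T (F n)) (T (F (n + 1))) ≤ 1 / 2 ^ n := by
    intro n
    rw [dist_comm, dist_eq_norm, ← map_sub]
    refine (T_norm_mono hsup (g := sndc (g n)) ?_).trans ((gd n).trans (by rw [one_div_pow]))
    intro p
    show |F (n + 1) p - F n p| ≤ |g n p.2|
    rw [hFs, ContinuousMap.sup_apply]
    have e1 := hug0 n p
    have e2 := (hFI n p).1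
    have e3 : (fstc (uu n) * sndc (g n) : C(K × L, ℝ)) p ≤ g n p.2 :=
      mul_le_of_le_one_left (g0 n p.2) (huI n p.1).2
    have e4 : 0 ≤ g n p.2 := g0 n p.2
    rw [abs_of_nonneg e4, abs_of_nonneg (sub_nonneg.2 le_sup_left), sub_le_iff_le_add]
    exact sup_le (by linarith) (by linarith)
  have hcau : CauchySeq fun n => T (F n) := by
    refine cauchySeq_of_le_geometric (1 / 2) 1 (by norm_num) fun n => ?_
    refine (hdist n).trans (le_of_eq ?_)
    rw [one_mul, one_div_pow]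
  obtain ⟨Fl, hFl⟩ := T_complete (x := x) hsup hr (F := F) (c := 1) one_pos (by
    intro n p
    show |F n p| ≤ 1 * 1
    rw [mul_one, abs_of_nonneg (hFI n p).1]
    exact (hFI n p).2) hcau
  -- local description of the limit
  have hloc : ∀ m n, m + 1 ≤ n → ∀ p : K × L, 1 / 2 < b m p.1 → F n p = F (m + 1) p := by
    intro m n hmn p hp
    induction n, hmn using Nat.le_induction with
    | base => rfl
    | succ n hmn ih =>
      rw [hFs, ContinuousMap.sup_apply, ih]
      have : (fstc (uu n) * sndc (g n) : C(K × L, ℝ)) p = 0 := by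
        show uu n p.1 * g n p.2 = 0
        rw [hu0 n m p.1 (by omega) hp, zero_mul]
      rw [this]
      exact sup_eq_left.2 (hFI (m + 1) p).1
  have hval : ∀ m (l' : L), Fl (κ m, l') = F (m + 1) (κ m, l') := by
    intro m l'
    set W : C(K × L, ℝ) := fstc (0 ⊔ ((2 : ℝ) • b m - 1)) with hW
    have hWa : ∀ p : K × L, W p = max 0 (2 * b m p.1 - 1) := fun p => rfl
    have hWI : ∀ p : K × L, |W p| ≤ 1 := by
      intro p
      rw [hWa, abs_of_nonneg (le_max_left _ _)]
      refine max_le zero_le_one ?_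
      have := (hbI m p.1).2
      linarith
    have hz : ‖T (W * (Fl - F (m + 1)))‖ ≤ 0 := by
      refine ge_of_tendsto (x := (atTop : Filter ℕ)) (f := fun n => ‖T (F n) - T Fl‖)
        ?_ ?_
      · rw [← tendsto_iff_norm_sub_tendsto_zero]
        exact hFl
      · filter_upwards [eventually_ge_atTop (m + 1)] with n hn
        rw [← map_sub]
        apply T_norm_mono hsup
        intro p
        show |W p * (Fl p - F (m + 1) p)| ≤ |F n p - Fl p|
        by_cases hp : 1 / 2 < b m p.1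
        · rw [← hloc m n hn p hp, abs_mul, abs_sub_comm (Fl p)]
          exact mul_le_of_le_one_left (abs_nonneg _) (hWI p)
        · have : W p = 0 := by
            rw [hWa]
            exact max_eq_left (by push Not at hp; linarith)
          rw [this, zero_mul, abs_zero]
          exact abs_nonneg _
    have h0 : W * (Fl - F (m + 1)) = 0 := hinj (by rw [norm_le_zero_iff.1 hz, map_zero])
    have h1 := DFunLike.congr_fun h0 (κ m, l')
    have h2 : W (κ m, l') = 1 := by
      rw [hWa, hb1]; norm_num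
    rw [ContinuousMap.mul_apply, h2, one_mul, ContinuousMap.sub_apply] at h1
    exact sub_eq_zero.1 h1
  have hFκ : ∀ m n, n ≤ m + 1 → ∀ l' : L, F n (κ m, l') = hh n l' := by
    intro m n hn l'
    induction n with
    | zero => rfl
    | succ n ih =>
      rw [hFs, ContinuousMap.sup_apply, ih (by omega), hhs, ContinuousMap.sup_apply]
      congr 1
      show uu n (κ m) * g n l' = g n l'
      rw [huκ n m (by omega), one_mul]
  have hFlκ : ∀ m (l' : L), Fl (κ m, l') = hh (m + 1) l' := fun m l' => by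
    rw [hval, hFκ m (m + 1) le_rfl]
  -- a cluster point in the first factor
  obtain ⟨κ₀, -, hκ₀⟩ := isCompact_univ.exists_mapClusterPt (f := (atTop : Filter ℕ)) (u := κ)
    (by simp)
  set Fc : C(K, C(L, ℝ)) := Fl.curry with hFc
  have hWn : {y : K | dist (Fc y) (Fc κ₀) < 1 / 16} ∈ 𝓝 κ₀ :=
    (Fc.continuous.continuousAt (x := κ₀)) (Metric.ball_mem_nhds _ (by norm_num))
  have hfreq := frequently_atTop.1 (hκ₀.frequently hWn)
  obtain ⟨m, -, hm⟩ := hfreq 0
  obtain ⟨m', hmm', hm'⟩ := hfreq (m + 1)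
  have hd : dist (Fc (κ m)) (Fc (κ m')) < 1 / 8 := by
    have := dist_triangle_right (Fc (κ m)) (Fc (κ m')) (Fc κ₀)
    have a1 : dist (Fc (κ m)) (Fc κ₀) < 1 / 16 := hm
    have a2 : dist (Fc (κ m')) (Fc κ₀) < 1 / 16 := hm'
    linarith
  have hd2 := (ContinuousMap.dist_apply_le_dist (l (m + 1)) (f := Fc (κ m))
    (g := Fc (κ m'))).trans_lt hd
  have c1 : Fc (κ m) (l (m + 1)) = hh (m + 1) (l (m + 1)) := hFlκ m _
  have c2 : Fc (κ m') (l (m + 1)) = hh (m' + 1) (l (m + 1)) := hFlκ m' _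
  rw [c1, c2, Real.dist_eq] at hd2
  have c3 := hl1 (m + 1)
  have c4 : g (m + 1) (l (m + 1)) ≤ hh (m' + 1) (l (m + 1)) := by
    have e1 : g (m + 1) ≤ hh (m + 1 + 1) := le_of_le_of_eq le_sup_right (hhs (m + 1)).symm
    have hle : m + 1 + 1 ≤ m' + 1 := by omega
    have e2 : hh (m + 1 + 1) ≤ hh (m' + 1) := hhmono hle
    exact (e1.trans e2) _
  have c5 := hl2 (m + 1)
  have c6 := abs_lt.1 hd2
  linarith [c6.1, c6.2]

/-- Sickness is invariant under homeomorphisms. -/
theorem Sick.homeo {K : Type u} {K' : Type w} [TopologicalSpace K] [TopologicalSpace K']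
    (e : K ≃ₜ K') (h : Sick.{u, v} K) : Sick.{w, v} K' := by
  obtain ⟨E, i1, i2, i3, i4, i5, i6, i7, i8, x, T, hx, hinj, hsup, hinf, hr⟩ := h
  refine ⟨E, i1, i2, i3, i4, i5, i6, i7, i8, x,
    { toFun := fun f => T (f.comp (e : C(K, K')))
      map_add' := fun f g => by rw [← map_add]; rfl
      map_smul' := fun c g => by rw [RingHom.id_apply, ← map_smul]; rfl }, hx, ?_, ?_, ?_, ?_⟩
  · intro f g hfg
    have h1 := hinj hfg
    ext y
    have := DFunLike.congr_fun h1 (e.symm y)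
    simpa using this
  · intro f g
    exact hsup (f.comp (e : C(K, K'))) (g.comp (e : C(K, K')))
  · intro f g
    exact hinf (f.comp (e : C(K, K'))) (g.comp (e : C(K, K')))
  · rw [← hr]
    ext y
    constructor
    · rintro ⟨f, rfl⟩
      exact ⟨_, rfl⟩
    · rintro ⟨f, rfl⟩
      refine ⟨f.comp (e.symm : C(K', K)), ?_⟩
      show T _ = T _
      congr 1
      ext y
      simp

/-- Main theorem: a sick product of two infinite compact spaces is metrizable. -/
theorem metrizable_prod {K : Type u} {L : Type w} [TopologicalSpace K] [TopologicalSpace L]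
    [CompactSpace K] [T2Space K] [Infinite K] [CompactSpace L] [T2Space L] [Infinite L]
    (hS : Sick.{max u w, v} (K × L)) :
    MetrizableSpace K ∧ MetrizableSpace L ∧ MetrizableSpace (K × L) := by
  have h1 : MetrizableSpace L := metrizable_snd hS
  have h2 : MetrizableSpace K := metrizable_snd (Sick.homeo (Homeomorph.prodComm K L) hS)
  exact ⟨h2, h1, inferInstance⟩

end Pool.Agent.Q304.SK
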